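import Pool.Agent.H24.Thin

set_option autoImplicit false

namespace Pool.Agent.Results.MP_74be22_co.NoTransversal

/-- `S` is a `C`-bounded transversal of the family `A` of subsets of `{0, …, n - 1}`. -/
def IsBoundedTransversal {n : ℕ} {ι : Type} (A : ι → Finset (Fin n)) (C : ℕ)
    (S : Finset (Fin n)) : Prop :=
  ∀ k, 1 ≤ (A k ∩ S).card ∧ (A k ∩ S).card ≤ C

/-- The statement of Q1. -/
def Q1 : Prop :=
  ∀ c₁ : ℝ, 0 < c₁ → ∃ C : ℕ, ∀ (n : ℕ) (ι : Type) [Finite ι] (A : ι → Finset (Fin n)),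
    (∀ k, c₁ * Real.sqrt n < (A k).card) → (∀ k l, k ≠ l → (A k ∩ A l).card ≤ 1) →
      ∃ S : Finset (Fin n), IsBoundedTransversal A C S

/-- The statement of Q2. -/
def Q2 : Prop :=
  ∀ c₁ c₂ : ℝ, 0 < c₁ → 0 < c₂ →
    ∃ C : ℕ, ∀ (n : ℕ) (ι : Type) [Finite ι] (A : ι → Finset (Fin n)),
      (∀ k, c₁ * Real.sqrt n < (A k).card) → (∀ k l, k ≠ l → ((A k ∩ A l).card : ℝ) ≤ c₂) →
        ∃ S : Finset (Fin n), IsBoundedTransversal A C S

theorem strong (c : ℝ) (hc : c < 1) (C N : ℕ) : ∃ n : ℕ, N ≤ n ∧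
    ∃ (ι : Type) (_ : Finite ι) (A : ι → Finset (Fin n)),
      (∀ k, c * Real.sqrt n < (A k).card) ∧ (∀ k l, k ≠ l → (A k ∩ A l).card ≤ 1) ∧
      ∀ S : Finset (Fin n), ¬ IsBoundedTransversal A C S := by
  classical
  have hd : 0 < 1 - c := by linarith
  obtain ⟨m, hm⟩ := exists_nat_gt (4 * C / (1 - c))
  obtain ⟨M, hM⟩ := exists_nat_gt (2 * C / (1 - c))
  obtain ⟨N₀, hN₀⟩ := Pool.Agent.H24.Thin.numeric C ((m + 2) ^ C) (by positivity)
  obtain ⟨p, hp, hprime⟩ := Nat.exists_infinite_primes (max N (max M N₀) + 1)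
  have : Fact p.Prime := ⟨hprime⟩
  have hpN : N ≤ p := by
    have := le_max_left N (max M N₀)
    omega
  have hpM : M ≤ p := by
    have := (le_max_left M N₀).trans (le_max_right N (max M N₀))
    omega
  have hpN0 : N₀ ≤ p := by
    have := (le_max_right M N₀).trans (le_max_right N (max M N₀))
    omega
  obtain ⟨A, h1, h2, h3⟩ := Pool.Agent.H24.Thin.main_X p C m (hN₀ p hpN0)
  set e : ZMod p × ZMod p ≃ Fin (Fintype.card (ZMod p × ZMod p)) :=
    Fintype.equivFin (ZMod p × ZMod p) with he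
  have hcard : Fintype.card (ZMod p × ZMod p) = p * p := by
    rw [Fintype.card_prod, ZMod.card]
  have hppos : 0 < p := hprime.pos
  refine ⟨Fintype.card (ZMod p × ZMod p), ?_, ZMod p ⊕ (ZMod p × ZMod p), inferInstance,
    fun k => (A k).map e.toEmbedding, ?_, ?_, ?_⟩
  · rw [hcard]
    exact hpN.trans (Nat.le_mul_of_pos_left p hppos)
  · intro k
    rw [Finset.card_map, hcard]
    push_cast
    rw [Real.sqrt_mul_self (Nat.cast_nonneg p)]
    have hk : (p : ℝ) ≤ (A k).card + C * (((p / (m + 1) : ℕ) : ℝ) + 1) := by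
      exact_mod_cast h1 k
    have hdiv : ((p / (m + 1) : ℕ) : ℝ) ≤ (p : ℝ) / ((m + 1 : ℕ) : ℝ) := Nat.cast_div_le
    have hm1 : (0 : ℝ) < ((m + 1 : ℕ) : ℝ) := by positivity
    have hCm : (C : ℝ) / ((m + 1 : ℕ) : ℝ) ≤ (1 - c) / 4 := by
      rw [div_le_iff₀ hm1]
      rw [div_lt_iff₀ hd] at hm
      push_cast
      nlinarith
    have hpR : (0 : ℝ) < p := by exact_mod_cast hppos
    have hCp : (C : ℝ) * ((p / (m + 1) : ℕ) : ℝ) ≤ (1 - c) / 4 * p := by
      calc (C : ℝ) * ((p / (m + 1) : ℕ) : ℝ) ≤ C * ((p : ℝ) / ((m + 1 : ℕ) : ℝ)) := by gcongr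
        _ = C / ((m + 1 : ℕ) : ℝ) * p := by ring
        _ ≤ (1 - c) / 4 * p := by gcongr
    have hCM : (C : ℝ) < (1 - c) / 2 * p := by
      rw [div_lt_iff₀ hd] at hM
      have : (M : ℝ) ≤ p := by exact_mod_cast hpM
      nlinarith
    nlinarith
  · intro k l hkl
    rw [← Finset.map_inter, Finset.card_map]
    exact h2 k l hkl
  · intro S hS
    apply h3 (S.map e.symm.toEmbedding)
    intro k
    have hmap : (A k).map e.toEmbedding ∩ S =
        ((A k) ∩ S.map e.symm.toEmbedding).map e.toEmbedding := by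
      rw [Finset.map_inter, Finset.map_map]
      congr 1
      ext x
      simp
    have := hS k
    rw [hmap, Finset.card_map] at this
    exact this

/-- For every `c < 1` and every `C` there are families, on arbitrarily large ground sets, of sets
with more than `c √n` elements and pairwise intersections of size at most one, without a
`C`-bounded transversal. In particular Q1 and Q2 are false. -/
theorem result :
    (∀ c : ℝ, c < 1 → ∀ C N : ℕ, ∃ n : ℕ, N ≤ n ∧
      ∃ (ι : Type) (_ : Finite ι) (A : ι → Finset (Fin n)),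
        (∀ k, c * Real.sqrt n < (A k).card) ∧ (∀ k l, k ≠ l → (A k ∩ A l).card ≤ 1) ∧
        ∀ S : Finset (Fin n), ¬ IsBoundedTransversal A C S) ∧
    ¬ Q1 ∧ ¬ Q2 := by
  refine ⟨strong, ?_, ?_⟩
  · intro h
    obtain ⟨C, hC⟩ := h (1 / 2) (by norm_num)
    obtain ⟨n, _, ι, hι, A, h1, h2, h3⟩ := strong (1 / 2) (by norm_num) C 0
    obtain ⟨S, hS⟩ := hC n ι A h1 h2
    exact h3 S hS
  · intro h
    obtain ⟨C, hC⟩ := h (1 / 2) 1 (by norm_num) (by norm_num)
    obtain ⟨n, _, ι, hι, A, h1, h2, h3⟩ := strong (1 / 2) (by norm_num) C 0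
    obtain ⟨S, hS⟩ := hC n ι A h1 (fun k l hkl => by exact_mod_cast h2 k l hkl)
    exact h3 S hS

end Pool.Agent.Results.MP_74be22_co.NoTransversal
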